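import Pool.Agent.H87.LUY.Stmts

/-!
Project LU, part Y, Fuglede-Kadison route, module ACU: cutting at the level `-1` and the block
triangular estimate.
-/

set_option autoImplicit false
set_option linter.unusedVariables false

open scoped BigOperators Topology
open Filter MeasureTheory Pool.H3.L2 Pool.H29.L2

noncomputable section

namespace Pool.LU.FK

theorem acu_pos {I J : Type} [Fintype I] [DecidableEq I] [Fintype J] (Z : Matrix I J ℝ) (η : ℝ)
    (hη : 0 < η) : 0 < gd η Z := by
  unfold gd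
  have h1 : (Z * Z.transpose).PosSemidef := by
    have := Matrix.posSemidef_self_mul_conjTranspose Z
    rwa [Matrix.conjTranspose_eq_transpose_of_trivial] at this
  have h2 : (η • (1 : Matrix I I ℝ)).PosDef := Matrix.PosDef.one.smul hη
  exact (Matrix.PosDef.posSemidef_add h1 h2).det_pos

theorem acu_corner : ∀ a b : SV, nz a = 0 → sadj a b → nz b ≠ 0 := by decide +kernel

theorem acu_card : Fintype.card {u : SV // nz u ≠ 0} = 18 := by decide +kernel

section

variable {Y : YSet} {l : ℕ} (L : Lvl Y l)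

theorem acu_AT (p : C1a Y) (q : C2a Y) : AT Y p q =
    (if p.1.1 = q.1.1.2 then df Y q.1.1.1 q.1.2 p.1.2 else 0) -
    (if p.1.1 = q.1.1.1 then df Y q.1.1.2 q.1.2 p.1.2 else 0) := rfl

/-- levels of the nonzero entries -/
theorem acu_lev (p : C1a Y) (q : C2a Y) (h : AT Y p q ≠ 0) :
    L.ν p.1.2 = L.ν q.1.2 ∨ (nz p.1.1 ≠ 0 ∧ L.ν p.1.2 = L.ν q.1.2 - 1) := by
  have hq := q.2
  have hb : nz q.1.1.2 ≠ 0 := acu_corner _ _ hq.1.1 hq.1.2
  rw [acu_AT] at h
  by_cases h1 : p.1.1 = q.1.1.2
  · have h2 : p.1.1 ≠ q.1.1.1 := by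
      rw [h1]
      exact Ne.symm hq.1.2.1
    rw [if_pos h1, if_neg h2, sub_zero] at h
    unfold df at h
    by_cases h3 : p.1.2 = q.1.2
    · left; rw [h3]
    · by_cases h4 : p.1.2 = Y.ρ q.1.1.1 q.1.2
      · right
        refine ⟨by rw [h1]; exact hb, ?_⟩
        rw [h4]
        exact L.dn _ _ hq.1.1 hq.2.1
      · rw [if_neg h3, if_neg h4] at h
        exact absurd (sub_self _) h
  · rw [if_neg h1, zero_sub] at h
    by_cases h2 : p.1.1 = q.1.1.1
    · rw [if_pos h2] at h
      unfold df at h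
      by_cases h3 : p.1.2 = q.1.2
      · left; rw [h3]
      · by_cases h4 : p.1.2 = Y.ρ q.1.1.2 q.1.2
        · left
          rw [h4]
          exact L.st _ _ hb
        · rw [if_neg h3, if_neg h4] at h
          simp at h
    · rw [if_neg h2] at h
      simp at h

/-- ACU -/
theorem acu (hL : LEVStmt) (hC : CUTStmt) (hB : BNDStmt) (hE : EQDStmt) : ACUStmt := by
  intro Y l L η hl hη
  classical
  have : NeZero (2 * l) := ⟨by omega⟩
  have h01 : (-1 : ZMod (2 * l)) ≠ 0 := by
    intro h
    have h1 : (1 : ZMod (2 * l)) = 0 := by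
      rw [← neg_neg (1 : ZMod (2 * l)), h, neg_zero]
    have : Fact (1 < 2 * l) := ⟨by omega⟩
    exact one_ne_zero h1
  let Z' : Matrix (C1a Y) (C2a Y) ℝ := Matrix.of fun p q =>
    if L.ν p.1.2 = -1 ∧ L.ν q.1.2 = 0 then 0 else AT Y p q
  have hZ' : ∀ p q, Z' p q = if L.ν p.1.2 = -1 ∧ L.ν q.1.2 = 0 then 0 else AT Y p q :=
    fun p q => rfl
  let S : C1a Y → Prop := fun p => L.ν p.1.2 = -1 ∧ nz p.1.1 ≠ 0
  -- step 1: LEV
  have h1 : gd η (A0 L) ≤ gd η Z' := by
    have h2 := hL (C1a Y) (C2a Y) Z' (fun p => (L.ν p.1.2).val) (fun q => (L.ν q.1.2).val) η hη ?_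
    · have h3 : (Matrix.of fun (p : C1a Y) (q : C2a Y) =>
          if (L.ν p.1.2).val = (L.ν q.1.2).val then Z' p q else 0) = A0 L := by
        ext p q
        rw [Matrix.of_apply]
        unfold A0
        rw [Matrix.of_apply]
        by_cases h4 : L.ν p.1.2 = L.ν q.1.2
        · rw [if_pos h4, if_pos (by rw [h4]), hZ', if_neg]
          rintro ⟨h5, h6⟩
          rw [h4, h6] at h5
          exact h01 h5.symm
        · rw [if_neg h4, if_neg]
          intro h5
          exact h4 (ZMod.val_injective _ h5)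
      rwa [h3] at h2
    · intro p q h3
      show (L.ν p.1.2).val ≤ (L.ν q.1.2).val
      rw [hZ'] at h3
      by_cases h4 : L.ν p.1.2 = -1 ∧ L.ν q.1.2 = 0
      · rw [if_pos h4] at h3
        exact absurd rfl h3
      · rw [if_neg h4] at h3
        rcases acu_lev L p q h3 with h5 | ⟨_, h5⟩
        · rw [h5]
        · have h6 : L.ν q.1.2 ≠ 0 := by
            intro h7
            rw [h7, zero_sub] at h5
            exact h4 ⟨h5, h7⟩
          have : Fact (1 < 2 * l) := ⟨by omega⟩
          have h7 : (L.ν q.1.2).val = (L.ν p.1.2).val + 1 ∨ L.ν q.1.2 = 0 := by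
            have h8 : L.ν q.1.2 = L.ν p.1.2 + 1 := by rw [h5]; ring
            by_cases h9 : (L.ν p.1.2).val + (1 : ZMod (2 * l)).val < 2 * l
            · left
              rw [h8, ZMod.val_add_of_lt h9, ZMod.val_one]
            · right
              rw [h8]
              have h10 : (L.ν p.1.2).val < 2 * l := ZMod.val_lt _
              rw [ZMod.val_one] at h9
              have h11 : (L.ν p.1.2).val + 1 = 2 * l := by omega
              have h12 : (((L.ν p.1.2).val + 1 : ℕ) : ZMod (2 * l)) = L.ν p.1.2 + 1 := by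
                push_cast
                rw [ZMod.natCast_zmod_val]
              rw [← h12, h11, ZMod.natCast_self]
          rcases h7 with h7 | h7
          · omega
          · exact absurd h7 h6
  -- step 2: CUT
  have h2 := hC (C1a Y) (C2a Y) (AT Y) Z' S η 100 hη (by norm_num) ?_ ?_
  rotate_left
  · intro p q hS
    rw [hZ']
    split_ifs with h3
    · by_contra h4
      rcases acu_lev L p q h4 with h5 | ⟨h5, _⟩
      · rw [h3.1, h3.2] at h5
        exact h01 h5
      · exact hS ⟨h3.1, h5⟩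
    · rfl
  · refine (hB Y).2.2 Z' fun p q => ?_
    rw [hZ']
    split_ifs
    · right; rfl
    · left; rfl
  -- step 3: number of rows
  set s := Fintype.card {i // S i} with hs
  have h3 : s ≤ 18 * Fintype.card {y // L.ν y = -1} := by
    rw [hs, ← acu_card, ← Fintype.card_prod]
    refine Fintype.card_le_of_injective
      (fun p : {i // S i} => ((⟨p.1.1.1, p.2.2⟩, ⟨p.1.1.2, p.2.1⟩) :
        {u : SV // nz u ≠ 0} × {y // L.ν y = -1})) ?_
    intro p p' h
    have e1 : p.1.1.1 = p'.1.1.1 := congrArg (fun x => x.1.1) h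
    have e2 : p.1.1.2 = p'.1.1.2 := congrArg (fun x => x.2.1) h
    exact Subtype.ext (Subtype.ext (Prod.ext e1 e2))
  have h4 := hE Y l L hl (-1)
  have h5 : (s : ℝ) ≤ 9 * (Fintype.card Y.X : ℝ) / l := by
    have hl' : (0 : ℝ) < l := by exact_mod_cast hl
    rw [le_div_iff₀ hl']
    have h6 : (s : ℝ) ≤ 18 * (Fintype.card {y // L.ν y = -1} : ℝ) := by exact_mod_cast h3
    have h7 : 2 * (l : ℝ) * (Fintype.card {y // L.ν y = -1} : ℝ) = (Fintype.card Y.X : ℝ) := by
      exact_mod_cast h4
    nlinarith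
  have hlog : 0 ≤ Real.log ((100 + η) / η) := by
    apply Real.log_nonneg
    rw [le_div_iff₀ hη]
    linarith
  have h6 : gd η (A0 L) ≤ ((100 + η) / η) ^ s * gd η (AT Y) := by
    refine h1.trans ?_
    rw [div_pow, div_mul_eq_mul_div, le_div_iff₀ (by positivity), mul_comm]
    exact h2
  have hpos := acu_pos (A0 L) η hη
  have hpos' := acu_pos (AT Y) η hη
  calc Real.log (gd η (A0 L)) ≤ Real.log (((100 + η) / η) ^ s * gd η (AT Y)) :=
        Real.log_le_log hpos h6
    _ = s * Real.log ((100 + η) / η) + Real.log (gd η (AT Y)) := by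
        rw [Real.log_mul (by positivity) hpos'.ne', Real.log_pow]
    _ ≤ 9 * (Fintype.card Y.X : ℝ) / l * Real.log ((100 + η) / η) + Real.log (gd η (AT Y)) := by
        have := mul_le_mul_of_nonneg_right h5 hlog
        linarith
    _ = _ := by ring

end

end Pool.LU.FK
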